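import Pool.Agent.X287.QSys
import Pool.Agent.X287.Kit2
import Pool.Agent.X287.Val

/-!
# Deligne's conjecture at the central point: algebraicity of limits of finite products over primes

`F` is a number field, `M` a motive over `ℚ` of odd weight `w` with coefficients in `F`, and `s₀ = (w + 1)/2 ∈ ℤ` the
central point, a critical integer for all `M` of odd weight `w` such that `h^{p,q} ≠ 0`, `p < q`, implies `p < s₀ ≤ q`
(always true, because `p + q = w`); the other critical integers lie in the half plane of absolute convergence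
`Re s > w/2 + 1` or in its mirror image. Used are only the traces of Frobenius: elements
`a_p(n) ∈ F`, `n ≥ 1` (`a_p(n) = Tr(Frob_p^n | M_λ^{I_p})`), and for every REAL embedding `τ : F → ℝ` (all embeddings if `F` is
totally real) the eigenvalues `α^τ_{p,1}, …, α^τ_{p,d}` (completed by zeros), with

`∑_i (α^τ_{p,i})^n = τ(a_p(n))`,  `|α^τ_{p,i}| ≤ p^(w/2)`,  `L^τ(s) = ∏_p ∏_i (1 - α^τ_{p,i} p^{-s})⁻¹`.

For `ρ' > ρ > 1` let `P^τ_{ρ,ρ'}(Y)` be the FINITE exponential sum over the primes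

`P^τ_{ρ,ρ'}(Y) = exp ( ∑ w_{1/ρ}(n log p / log Y) τ(a_p(n)) / (n p^{n s₀}) )`,

over the pairs `(p, n)`, `n ≥ 1`, with `p^n ≤ exp((log Y)^ρ')`, where `w_α` is the smooth Mittag-Leffler weight
`w_α(u) = (2π)⁻¹ ∫ Re (exp(z - u z^α) / z) dt`, `z = 1 + i t`, `w_α(0) = 1`: a smoothed form of the product of the Euler
factors at `s₀`. The hypothesis is that, for every `τ`, `L^τ(s)` continues to a function holomorphic near the real
segment `[s₀, s₀ + 1/2]`; its value at `s₀` is the central value `L^τ(s₀)`. For `ρ₀ ≥ 1` let `(Z^τ)` be the statement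

  `L^τ(s)` has a holomorphic continuation WITHOUT ZEROS to the union of the sector `|arg (s - s₀)| < π / (2 ρ₀)` (the
  half plane `Re s > s₀` for `ρ₀ = 1`) and the half plane `Re s > s₀ + 1/2`.

Fix, for every `ρ`, a `ρ' = t(ρ) > ρ`. Let `c^τ ≠ 0` be any real numbers, for instance the components of the period
`c⁺(M, s₀)` of Deligne, which are real. Then:

1. Let `x ∈ F`, `x ≠ 0`. One has `(Z^τ)` and `L^τ(s₀) = c^τ τ(x)` for all `τ` if and only if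
   `P^τ_{ρ,ρ'}(Y) → c^τ τ(x)` for all `τ` and all `ρ > ρ₀`, and `c^τ τ(x) > 0` for all `τ`.
2. Let `x ∈ F` with `c^τ τ(x) > 0` for all `τ`. One has `(Z^τ)` and `L^τ(s₀) ≥ c^τ τ(x)` for all `τ` if and only if for
   all `τ`, `ρ > ρ₀` and `ε > 0`: `P^τ_{ρ,ρ'}(Y) ≥ (1 - ε) c^τ τ(x)` for all large `Y`.
3. One has `(Z^τ)` and `L^τ(s₀) ≠ 0` for all `τ` if and only if for all `τ` and `ρ > ρ₀` there is a `δ > 0` with
   `P^τ_{ρ,ρ'}(Y) ≥ δ` for all large `Y`; and then all the `L^τ(s₀)` are positive and `P^τ_{ρ,ρ'}(Y) → L^τ(s₀)`.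

So Deligne's conjecture for a nonzero central value, `L(M, s₀) = c⁺(M, s₀) x` with `x ∈ F`, is, together with the
absence of zeros in the sectors, equivalent to the statement that the finite products, divided by the components
of the period, converge to the conjugates of an element of `F`: no `L`-function appears. By 2 and 3 the inequality, and
non-vanishing at `s₀` with the continuation and the absence of zeros in a sector, follow from LOWER bounds only.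

Proof: Landau's theorem on Laplace transforms of nonnegative functions, for `log L(s₀ + v^{1/ρ})`; see
`Pool.Agent.X287.RSect`, `RSys`, `RSys2`, `Beta`, `Kit`, and `Pool.Agent.TH942.SL`, `ES` for the asymptotic theory.
-/

set_option autoImplicit false

open Filter Topology

namespace Pool.Agent.Results.MP_cd171c_nt.CentralValueFiniteProducts

variable {F : Type} [Field F] {d : ℕ}

/-- The traces `a_p(n) ∈ F` and the eigenvalues `α^τ_{p,i}` of Frobenius, for the real embeddings `τ` of `F`; the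
weight is `w = 2 s₀ - 1`. -/
structure IsLocalData (a : Nat.Primes → ℕ → F) (α : (F →+* ℝ) → Nat.Primes → Fin d → ℂ) (s₀ : ℤ) :
    Prop where
  /-- the power sums of the eigenvalues are the conjugates of the traces -/
  trace : ∀ τ p n, ∑ i, α τ p i ^ (n + 1) = ((τ (a p (n + 1)) : ℝ) : ℂ)
  /-- the eigenvalues have absolute value at most `p^(w/2)` -/
  le : ∀ τ p i, ‖α τ p i‖ ≤ ((p : ℕ) : ℝ) ^ ((s₀ : ℝ) - 1 / 2)

/-- The Mittag-Leffler weight `w_α(u) = (2π)⁻¹ ∫ Re (exp (z - u z^α) / z) dt`, `z = 1 + it`. -/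
noncomputable def weight (α u : ℝ) : ℝ :=
  (2 * Real.pi)⁻¹ * ∫ t : ℝ, (Complex.exp ((1 + t * Complex.I) -
    u * (1 + t * Complex.I) ^ (α : ℂ)) / (1 + t * Complex.I)).re

/-- The pairs `(p, n)`, `n = x.2 + 1`, with `p ^ n ≤ exp((log Y)^ρ')`. -/
def pairs (ρ' Y : ℝ) : Set (Nat.Primes × ℕ) :=
  {x | ((x.1 : ℕ) : ℝ) ^ (x.2 + 1) ≤ Real.exp (Real.log Y ^ ρ')}

/-- `P^τ_{ρ,ρ'}(Y)`: the exponential of the sum over the finite set `pairs`, with `n = x.2 + 1`. -/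
noncomputable def P (a : Nat.Primes → ℕ → F) (τ : F →+* ℝ) (s₀ : ℤ) (ρ ρ' Y : ℝ) : ℝ :=
  Real.exp (∑ᶠ x ∈ pairs ρ' Y, weight ρ⁻¹ (((x.2 : ℝ) + 1) * Real.log (x.1 : ℕ) / Real.log Y) *
    (τ (a x.1 (x.2 + 1)) / (((x.2 : ℝ) + 1) * ((x.1 : ℕ) : ℝ) ^ (((x.2 : ℤ) + 1) * s₀))))

/-- `G` is the `L`-function with the local roots `β` for `Re s > s₀ + 1/2`. -/
def IsLSeries (β : Nat.Primes → Fin d → ℂ) (s₀ : ℤ) (G : ℂ → ℂ) : Prop :=
  ∀ s : ℂ, (s₀ : ℝ) + 1 / 2 < s.re →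
    HasProd (fun p : Nat.Primes => ∏ i, (1 - β p i * ((p : ℕ) : ℂ) ^ (-s))⁻¹) (G s)

/-- `G` continues the `L`-function holomorphically to a neighbourhood of the real segment `[s₀, s₀ + 1/2]`. -/
def IsRealContinuation (β : Nat.Primes → Fin d → ℂ) (s₀ : ℤ) (G : ℂ → ℂ) : Prop :=
  IsLSeries β s₀ G ∧ ∀ x : ℝ, (s₀ : ℝ) ≤ x → x ≤ (s₀ : ℝ) + 1 / 2 → AnalyticAt ℂ G (x : ℂ)

/-- `s` lies in the sector `|arg (s - s₀)| < π / (2ρ)`, `s ≠ s₀`; the half plane `Re s > s₀` for `ρ = 1`. -/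
def InSector (s₀ : ℤ) (ρ : ℝ) (s : ℂ) : Prop :=
  s ≠ s₀ ∧ |Complex.arg (s - s₀)| < Real.pi / (2 * ρ)

/-- `(Z)`: the `L`-function has a holomorphic continuation without zeros to the union of the sector and
`{Re s > s₀ + 1/2}`. -/
def ZeroFree (β : Nat.Primes → Fin d → ℂ) (s₀ : ℤ) (ρ₀ : ℝ) : Prop := ∃ G : ℂ → ℂ,
  IsLSeries β s₀ G ∧
  ∀ s : ℂ, InSector s₀ ρ₀ s ∨ (s₀ : ℝ) + 1 / 2 < s.re → DifferentiableAt ℂ G s ∧ G s ≠ 0

open Pool.Agent.X287.Kit in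
theorem P_eq {a : Nat.Primes → ℕ → F} {α : (F →+* ℝ) → Nat.Primes → Fin d → ℂ} {s₀ : ℤ}
    (h : IsLocalData a α s₀) (τ : F →+* ℝ) (ρ ρ' Y : ℝ) :
    P a τ s₀ ρ ρ' Y = Real.exp (Pool.Agent.TH942.ES.StE pN (al pN (α τ) s₀) ρ ρ' Y) := by
  unfold P Pool.Agent.TH942.ES.StE
  congr 1
  refine finsum_congr fun x => ?_
  refine finsum_congr_Prop rfl fun _ => ?_
  have e1 : weight = Pool.Agent.TH942.SL.wml := rfl
  rw [e1]
  congr 1
  have h1 := cP_al (N := pN) (β := α τ) (c₀ := (s₀ : ℝ)) (p := x) (pN_two x.1)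
  refine Eq.trans ?_ h1.symm
  rw [h.trace, Complex.ofReal_re]
  congr 2
  rw [← Real.rpow_intCast]
  push_cast
  rfl

open Pool.Agent.X287.Kit Pool.Agent.X287.RS in
/-- **Deligne's conjecture at the central point and finite products over primes.** -/
theorem result (F : Type) [Field F] [NumberField F] (d : ℕ) (s₀ : ℤ) (a : Nat.Primes → ℕ → F)
    (α : (F →+* ℝ) → Nat.Primes → Fin d → ℂ) (hα : IsLocalData a α s₀)
    (L : (F →+* ℝ) → ℂ → ℂ) (hL : ∀ τ, IsRealContinuation (α τ) s₀ (L τ)) :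
    (∀ ρ' Y : ℝ, (pairs ρ' Y).Finite) ∧
    ∀ t : ℝ → ℝ, (∀ ρ, ρ < t ρ) → ∀ ρ₀ : ℝ, 1 ≤ ρ₀ → ∀ c : (F →+* ℝ) → ℝ, (∀ τ, c τ ≠ 0) →
      -- 1. Deligne's conjecture
      (∀ x : F, x ≠ 0 → ((∀ τ, ZeroFree (α τ) s₀ ρ₀ ∧ L τ s₀ = ((c τ * τ x : ℝ) : ℂ)) ↔
        ∀ τ, 0 < c τ * τ x ∧ ∀ ρ : ℝ, ρ₀ < ρ →
          Tendsto (fun Y : ℝ => P a τ s₀ ρ (t ρ) Y) atTop (𝓝 (c τ * τ x)))) ∧
      -- 2. the inequality
      (∀ x : F, (∀ τ, 0 < c τ * τ x) →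
        ((∀ τ, ZeroFree (α τ) s₀ ρ₀ ∧ c τ * τ x ≤ (L τ s₀).re) ↔
        ∀ τ, ∀ ρ : ℝ, ρ₀ < ρ → ∀ ε : ℝ, 0 < ε → ∀ᶠ Y : ℝ in atTop,
          (1 - ε) * (c τ * τ x) ≤ P a τ s₀ ρ (t ρ) Y)) ∧
      -- 3. non-vanishing
      ((∀ τ, ZeroFree (α τ) s₀ ρ₀ ∧ L τ s₀ ≠ 0) ↔
        ∀ τ, ∀ ρ : ℝ, ρ₀ < ρ → ∃ δ : ℝ, 0 < δ ∧ ∀ᶠ Y : ℝ in atTop, δ ≤ P a τ s₀ ρ (t ρ) Y) ∧
      ((∀ τ, ZeroFree (α τ) s₀ ρ₀ ∧ L τ s₀ ≠ 0) → ∀ τ, 0 < (L τ s₀).re ∧ (L τ s₀).im = 0 ∧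
        ∀ ρ : ℝ, ρ₀ < ρ → Tendsto (fun Y : ℝ => P a τ s₀ ρ (t ρ) Y) atTop (𝓝 (L τ s₀).re)) := by
  have hreal : ∀ τ, Re pN (al pN (α τ) s₀) := fun τ => re_al pN_two fun v k => by
    rcases k with _ | k
    · simp
    · rw [hα.trace, Complex.ofReal_im]
  have E : ∀ τ, Pool.Agent.TH942.ES.Sys pN (al pN (α τ) s₀) := fun τ =>
    q_all _ (fun v i => norm_al (pN_two v) (hα.le τ v i)) (hreal τ)
  have hc : (s₀ : ℂ) = ((s₀ : ℝ) : ℂ) := by push_cast; rfl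
  have hl : ∀ τ, Loc pN (al pN (α τ) s₀) (s₀ : ℂ)
      (fun v s => ∏ i, (1 - α τ v i * (pN v : ℂ) ^ (-s))⁻¹) := fun τ => loc_al pN_two hc
  have H := fun τ => rcon (E τ) (hl τ) hc rfl (hL τ).1 (hL τ).2
  have h0 : ∀ τ, AnalyticAt ℂ (fun s => L τ (s₀ + s)) 0 := fun τ => by
    have := an_all (E τ) (hl τ) hc rfl (hL τ).1 (hL τ).2 0 le_rfl
    rwa [Complex.ofReal_zero] at this
  have hpairs : ∀ ρ' Y : ℝ, (pairs ρ' Y).Finite := by
    intro ρ' Y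
    have E0 : Pool.Agent.TH942.ES.Sys pN (al pN (fun (_ : Nat.Primes) (_ : Fin 0) => (0 : ℂ)) s₀) :=
      q_all _ (fun v i => i.elim0) (re_al pN_two fun v k => by simp)
    exact E0.finS _
  refine ⟨hpairs, fun t ht ρ₀ h c hcτ => ?_⟩
  have hZ : ∀ τ, ZeroFree (α τ) s₀ ρ₀ ↔ ∃ G : ℂ → ℂ, Ext pN (al pN (α τ) s₀) ρ₀ G := fun τ =>
    zf_iff (E τ) (hl τ) hc rfl ρ₀
  have hz0 : ∀ τ, L τ (s₀ + 0) = L τ s₀ := fun τ => by rw [add_zero]
  have v1 := fun (τ : F →+* ℝ) {B : ℝ} (hB : 0 < B) =>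
    val_eq (E τ) (hreal τ) (H τ) (h0 τ) h ht hB
  have v2 := fun (τ : F →+* ℝ) {B : ℝ} (hB : 0 < B) =>
    val_le (E τ) (hreal τ) (H τ) (h0 τ) h ht hB
  have v3 := fun (τ : F →+* ℝ) => val_ne (E τ) (hreal τ) (H τ) (h0 τ) h ht
  have v4 := fun (τ : F →+* ℝ) => val_lim (E τ) (hreal τ) (H τ) (h0 τ) h ht
  simp only [← hZ, hz0] at v1 v2 v3 v4
  simp only [P_eq hα]
  refine ⟨fun x hx => ?_, fun x hx => ?_, ?_, fun hh τ => v4 τ (hh τ)⟩
  · constructor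
    · intro h1 τ
      obtain ⟨h2, h3⟩ := h1 τ
      have h4 : L τ s₀ ≠ 0 := by
        rw [h3]
        have := mul_ne_zero (hcτ τ) ((map_ne_zero τ).2 hx)
        exact_mod_cast this
      obtain ⟨h5, -, h6⟩ := v4 τ ⟨h2, h4⟩
      rw [h3, Complex.ofReal_re] at h5 h6
      exact ⟨h5, h6⟩
    · intro h1 τ
      obtain ⟨h2, h3⟩ := h1 τ
      exact (v1 τ h2).2 h3
  · exact forall_congr' fun τ => v2 τ (hx τ)
  · exact forall_congr' fun τ => v3 τ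

end Pool.Agent.Results.MP_cd171c_nt.CentralValueFiniteProducts
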