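import Pool.Agent.X284.LI.Fin
import Pool.Agent.X309.DC

/-!
# The algebraic numbers in Deligne's conjecture for twists of newforms are linearly independent

Let `f_1, ..., f_r` be newforms of even weights `2 m_j`, levels `N_j` and arbitrary characters, with
pairwise different normalised eigenvalues.  The motives `M(f_j) ⊗ χ` (`χ` a Dirichlet character of
conductor prime to the `N_j`) are of odd weight `2 m_j - 1`, `s_0 = m_j` is critical, and Deligne's
conjecture, proved by Manin and Shimura in this case, says that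
`L(f_j ⊗ χ, m_j) = g(χ) Ω_j^± e_j(χ)` with the Gauss sum `g(χ)`, two numbers `Ω_j^±` (Deligne's
periods, the sign is `χ(-1)` up to `(-1)^(m_j)`) and an algebraic number `e_j(χ)` in the field generated by the
coefficients of `f_j` and the values of `χ`.

We show that for characters `χ` whose conductor is composed of primes of a fixed finite set `S` the
numbers `e_j(χ)` satisfy no fixed linear relation with coefficients in the group ring of the
integers prime to `S`: if `x_j(b)` are complex numbers, not all zero, where `b` runs through a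
finite set of positive integers prime to `S`, then
`∑_j (∑_b x_j(b) χ(b)) e_j(χ) ≠ 0` for all but finitely many primitive `χ` with conductor composed
of primes of `S`.  In particular all but finitely many of the numbers `e_j(χ)` are different from
`0`, the period of `M(f_j) ⊗ χ` is then determined by the value of the `L`-function, and two
different motives `M(f_i)`, `M(f_j)` have proportional values only for finitely many `χ`.
-/

set_option autoImplicit false

open Complex UpperHalfPlane MatrixGroups CongruenceSubgroup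

namespace Pool.Agent.Results.MP_cd171c_nt.LinearIndependenceOfTwists

/-- The `n`-th Fourier coefficient of `f`. -/
noncomputable def coef {N : ℕ} {k : ℤ} (f : CuspForm (Gamma1 N : Subgroup (GL (Fin 2) ℝ)) k)
    (n : ℕ) : ℂ :=
  (qExpansion 1 f).coeff n

/-- `f ∈ S_{2m}(Γ₁(N))` is a newform of level `N` with character `η`: the Fourier coefficients
`c(n)` satisfy `c(1) = 1`, `c(ab) = c(a) c(b)` for coprime `a`, `b`,
`c(p^(j+2)) = c(p) c(p^(j+1)) - η(p) p^(2m-1) c(p^j)`; for the primes `p ∤ N`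
`conj c(p) = conj η(p) c(p)` and `|c(p)| ≤ 2 p^((2m-1)/2)` (Eichler, Shimura, Deligne), for the
primes `p ∣ N` `|c(p)| ≤ p^((2m-1)/2)`; `f(γτ) = η(d) (cτ + d)^(2m) f(τ)` for
`γ = (a b; c d) ∈ Γ₀(N)`; and the Fricke involution takes `f` to a multiple of `f^c`,
`f^c(τ) = conj f(-conj τ)` (Atkin, Lehner, Li):
`f(-1/(Nτ)) = (-1)^m w N^m τ^(2m) f^c(τ)` with `|w| = 1`. -/
structure IsNewform (m N : ℕ) (η : DirichletCharacter ℂ N)
    (f : CuspForm (Gamma1 N : Subgroup (GL (Fin 2) ℝ)) (2 * m : ℤ)) (w : ℂ) : Prop where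
  one : coef f 1 = 1
  mul : ∀ a b : ℕ, Nat.Coprime a b → coef f (a * b) = coef f a * coef f b
  pow : ∀ p j : ℕ, p.Prime → coef f (p ^ (j + 2)) = coef f p * coef f (p ^ (j + 1)) -
    η (p : ZMod N) * (p : ℂ) ^ (2 * m - 1) * coef f (p ^ j)
  conj : ∀ p : ℕ, p.Prime → ¬ p ∣ N → (starRingEnd ℂ) (coef f p) =
    (starRingEnd ℂ) (η (p : ZMod N)) * coef f p
  good : ∀ p : ℕ, p.Prime → ¬ p ∣ N → ‖coef f p‖ ≤ 2 * (p : ℝ) ^ ((2 * m - 1 : ℝ) / 2)
  bad : ∀ p : ℕ, p.Prime → p ∣ N → ‖coef f p‖ ≤ (p : ℝ) ^ ((2 * m - 1 : ℝ) / 2)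
  neb : ∀ γ : SL(2, ℤ), γ ∈ Gamma0 N → ∀ τ : ℍ, f (γ • τ) = η ((γ 1 1 : ℤ) : ZMod N) *
    (((γ 1 0 : ℤ) : ℂ) * (τ : ℂ) + ((γ 1 1 : ℤ) : ℂ)) ^ (2 * m) * f τ
  norm : ‖w‖ = 1
  fricke : ∀ τ τ' τc : ℍ, (τ' : ℂ) * ((N : ℂ) * (τ : ℂ)) = -1 →
    (τc : ℂ) = -(starRingEnd ℂ) (τ : ℂ) →
    f τ' = (-1 : ℂ) ^ m * w * (N : ℂ) ^ m * (τ : ℂ) ^ (2 * m) * (starRingEnd ℂ) (f τc)

/-- A newform `f` of even weight `2m ≥ 2`, level `N ≥ 1` and character `η`. -/
structure Newform where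
  /-- the level -/
  N : ℕ
  N_ne : N ≠ 0
  /-- half of the weight -/
  m : ℕ
  m_pos : 1 ≤ m
  /-- the character -/
  η : DirichletCharacter ℂ N
  /-- the form -/
  f : CuspForm (Gamma1 N : Subgroup (GL (Fin 2) ℝ)) (2 * m : ℤ)
  /-- the constant of the Fricke involution -/
  w : ℂ
  newform : IsNewform m N η f w

/-- The Euler factor at the prime `p` of the `L`-function of `f ⊗ χ`:
`(1 - χ(p) c(p) p^(-s) + χ(p)² η(p) p^(2m-1) p^(-2s))⁻¹`. -/
noncomputable def Newform.factor (P : Newform) {q : ℕ} (χ : DirichletCharacter ℂ q) (s : ℂ)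
    (p : ℕ) : ℂ :=
  (1 - χ (p : ZMod q) * coef P.f p * (p : ℂ) ^ (-s) +
    χ (p : ZMod q) ^ 2 * (P.η (p : ZMod P.N) * (p : ℂ) ^ (2 * P.m - 1)) * (p : ℂ) ^ (-2 * s))⁻¹

/-- The normalised eigenvalues `c(p) / p^(m - 1/2)` of two newforms differ at the prime `p`. -/
def Differ (P Q : Newform) (p : ℕ) : Prop :=
  coef P.f p * (p : ℂ) ^ Q.m ≠ coef Q.f p * (p : ℂ) ^ P.m

/-- The Gauss sum `g(χ) = ∑_{a mod q} χ(a) exp(2πi a / q)`. -/
noncomputable def gauss {q : ℕ} (χ : DirichletCharacter ℂ q) : ℂ :=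
  ∑ a ∈ Finset.range q, χ (a : ZMod q) * Complex.exp (2 * Real.pi * Complex.I * a / q)

/-- The primitive Dirichlet characters with conductor composed of primes of `S`. -/
def Characters (S : Finset ℕ) : Set (Σ q : ℕ, DirichletCharacter ℂ q) :=
  {y | 1 ≤ y.1 ∧ (∀ p : ℕ, p.Prime → p ∣ y.1 → p ∈ S) ∧ y.2.IsPrimitive}

/-- the same newform in the library -/
noncomputable def Newform.lib (P : Newform) : Pool.Agent.X284.KS.Newform :=
  have : NeZero P.N := ⟨P.N_ne⟩
  { N := P.N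
    m := P.m
    m_pos := P.m_pos
    η := P.η
    f := P.f
    w := P.w
    newf := ⟨P.newform.one, P.newform.mul, P.newform.pow, P.newform.conj, P.newform.good,
      P.newform.bad, P.newform.neb, P.newform.norm, P.newform.fricke⟩ }

theorem factor_eq (P : Newform) {q : ℕ} (χ : DirichletCharacter ℂ q) (s : ℂ) (p : ℕ)
    (hp : p.Prime) :
    P.factor χ s p = (1 - χ (p : ZMod q) * Pool.Agent.W192.CY.cf P.lib.f p * (p : ℂ) ^ (-s) +
              χ (p : ZMod q) ^ 2 * P.lib.η (p : ZMod P.lib.N) *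
                (p : ℂ) ^ (2 * (P.lib.m : ℂ) - 1 - 2 * s))⁻¹ := by
  have hp0 : (p : ℂ) ≠ 0 := by exact_mod_cast hp.ne_zero
  have e : (p : ℂ) ^ (2 * (P.m : ℂ) - 1 - 2 * s) =
      (p : ℂ) ^ (2 * P.m - 1) * (p : ℂ) ^ (-2 * s) := by
    rw [← Complex.cpow_natCast, ← Complex.cpow_add _ _ hp0]
    congr 1
    have := P.m_pos
    rw [Nat.cast_sub (by omega)]
    push_cast
    ring
  unfold Newform.factor
  have e2 : χ (p : ZMod q) ^ 2 * P.lib.η (p : ZMod P.lib.N) *
      (p : ℂ) ^ (2 * (P.lib.m : ℂ) - 1 - 2 * s) =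
      χ (p : ZMod q) ^ 2 * (P.η (p : ZMod P.N) * (p : ℂ) ^ (2 * P.m - 1)) * (p : ℂ) ^ (-2 * s) := by
    have e3 : χ (p : ZMod q) ^ 2 * P.lib.η (p : ZMod P.lib.N) *
      (p : ℂ) ^ (2 * (P.lib.m : ℂ) - 1 - 2 * s) = χ (p : ZMod q) ^ 2 * P.η (p : ZMod P.N) *
      (p : ℂ) ^ (2 * (P.m : ℂ) - 1 - 2 * s) := rfl
    rw [e3, e]
    ring
  rw [e2]
  rfl

theorem nc_ne (P Q : Newform) {p : ℕ} (hp : p.Prime) (h : Differ P Q p) :
    Pool.Agent.X284.LI.nc P.lib p ≠ Pool.Agent.X284.LI.nc Q.lib p := by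
  have hp0 : (p : ℂ) ≠ 0 := by exact_mod_cast hp.ne_zero
  intro h1
  apply h
  have h2 : coef P.f p / (p : ℂ) ^ (P.m - 1) = coef Q.f p / (p : ℂ) ^ (Q.m - 1) := h1
  rw [div_eq_div_iff (pow_ne_zero _ hp0) (pow_ne_zero _ hp0)] at h2
  have e : ∀ R : Newform, (p : ℂ) ^ R.m = (p : ℂ) ^ (R.m - 1) * p := by
    intro R
    have := R.m_pos
    rw [← pow_succ]
    congr 1
    omega
  rw [e P, e Q, ← mul_assoc, ← mul_assoc, h2]

theorem gauss_eq {q : ℕ} [NeZero q] (χ : DirichletCharacter ℂ q) :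
    gauss χ = gaussSum χ (ZMod.stdAddChar (N := q)) := by
  classical
  unfold gauss gaussSum
  symm
  refine Finset.sum_bij (fun a _ => a.val) (fun a _ => Finset.mem_range.2 (ZMod.val_lt a))
    (fun a _ b _ h => ZMod.val_injective q h)
    (fun b hb => ⟨(b : ZMod q), Finset.mem_univ _, ZMod.val_cast_of_lt (Finset.mem_range.1 hb)⟩) ?_
  intro a _
  rw [ZMod.natCast_zmod_val]
  congr 1
  rw [ZMod.stdAddChar_apply, ZMod.toCircle_apply]

/-- **Main theorem.** Let `f_j` be finitely many newforms of even weights `2 m_j`, levels `N_j` and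
arbitrary characters, whose normalised eigenvalues differ pairwise at infinitely many primes.
There are functions `L j q χ`, the `L`-functions of the `f_j ⊗ χ`, entire and given by the Euler
product for `Re s > m_j + 1/2` if `q` is prime to `N_j` and `χ` is primitive modulo `q`, with the
following property.

Let `S` be a finite set of primes not dividing the `N_j` and `B` a finite set of positive integers
prime to `S`.  Let `x_j(b)`, `b ∈ B`, be complex numbers, not all zero, and `Ω_j(1)`, `Ω_j(-1)`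
nonzero complex numbers.  Then for all but finitely many primitive characters `χ` with conductor composed of primes
of `S`
`∑_j (∑_{b ∈ B} x_j(b) χ(b)) L(f_j ⊗ χ, m_j) / (g(χ) Ω_j(χ(-1))) ≠ 0`. -/
theorem result {ι : Type} [Fintype ι] (P : ι → Newform)
    (hne : ∀ i j, i ≠ j → {p : ℕ | p.Prime ∧ Differ (P i) (P j) p}.Infinite) :
    ∃ L : ι → (q : ℕ) → DirichletCharacter ℂ q → ℂ → ℂ,
      (∀ (j : ι) (q : ℕ) (χ : DirichletCharacter ℂ q), 1 ≤ q → Nat.Coprime q (P j).N →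
        χ.IsPrimitive → Differentiable ℂ (L j q χ) ∧ ∀ s : ℂ, ((P j).m : ℝ) + 1 / 2 < s.re →
          HasProd (fun p : Nat.Primes => (P j).factor χ s p) (L j q χ s)) ∧
      ∀ S : Finset ℕ, (∀ p ∈ S, p.Prime ∧ ∀ j, ¬ p ∣ (P j).N) → ∀ B : Finset ℕ,
        (∀ b ∈ B, 1 ≤ b ∧ ∀ p ∈ S, ¬ p ∣ b) → ∀ x : ι → ℕ → ℂ, (∃ j, ∃ b ∈ B, x j b ≠ 0) →
        ∀ Ω : ι → ℂ → ℂ, (∀ j, Ω j 1 ≠ 0 ∧ Ω j (-1) ≠ 0) →
        {y ∈ Characters S | ∑ j, (∑ b ∈ B, x j b * y.2 (b : ZMod y.1)) *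
          (L j y.1 y.2 (P j).m / (gauss y.2 * Ω j (y.2 (-1)))) = 0}.Finite := by
  classical
  obtain ⟨L, hL, hmain⟩ := Pool.Agent.X284.LI.li_main (fun j => (P j).lib) (fun i j hij =>
    (hne i j hij).mono fun p hp => ⟨hp.1, nc_ne (P i) (P j) hp.1 hp.2⟩)
  refine ⟨L, ?_, ?_⟩
  · intro j q χ hq hqN hχ
    obtain ⟨h1, h2⟩ := hL j q χ hq hqN hχ
    refine ⟨h1, fun s hs => ?_⟩
    refine (congrArg (fun g => HasProd g (L j q χ s)) (funext fun p => ?_)).mpr (h2 s hs)
    exact factor_eq (P j) χ s p p.2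
  · intro S hS B hB x hx Ω hΩ
    have hstep : ∀ e : ℂ, (∀ j, Ω j e ≠ 0) → ∃ q0 : ℕ, ∀ q : ℕ, q0 < q →
        (∀ p : ℕ, p.Prime → p ∣ q → p ∈ S) → ∀ χ : DirichletCharacter ℂ q, χ.IsPrimitive →
        ∑ j, ∑ b ∈ B, (x j b / Ω j e) * χ (b : ZMod q) * L j q χ (P j).m ≠ 0 := by
      intro e he
      refine hmain S hS B hB (fun j b => x j b / Ω j e) ?_
      obtain ⟨j, b, hb, hjb⟩ := hx
      exact ⟨j, b, hb, div_ne_zero hjb (he j)⟩
    obtain ⟨q1, hq1⟩ := hstep 1 fun j => (hΩ j).1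
    obtain ⟨q2, hq2⟩ := hstep (-1) fun j => (hΩ j).2
    refine (Pool.Agent.X309.DC.prim_finite 1 (max q1 q2)).subset ?_
    rintro ⟨q, χ⟩ ⟨⟨hq, hqS, hχ⟩, h0⟩
    refine ⟨hq, ?_, Nat.coprime_one_right _, hχ⟩
    by_contra hlt
    rw [not_le] at hlt
    have hqpos : 0 < q := hq
    have : NeZero q := ⟨by omega⟩
    have hg : gauss χ ≠ 0 := by
      rw [gauss_eq]
      exact Pool.Agent.W440.TW.gauss_ne_zero χ hχ
    have key : ∀ e : ℂ, χ (-1) = e →
        ∑ j, ∑ b ∈ B, (x j b / Ω j e) * χ (b : ZMod q) * L j q χ (P j).m = 0 := by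
      intro e he
      have h1 : ∑ j, (∑ b ∈ B, x j b * χ (b : ZMod q)) *
          (L j q χ (P j).m / (gauss χ * Ω j (χ (-1)))) = 0 := h0
      rw [he] at h1
      have h2 : ∑ j, ∑ b ∈ B, (x j b / Ω j e) * χ (b : ZMod q) * L j q χ (P j).m =
          gauss χ * ∑ j, (∑ b ∈ B, x j b * χ (b : ZMod q)) *
          (L j q χ (P j).m / (gauss χ * Ω j e)) := by
        rw [Finset.mul_sum]
        refine Finset.sum_congr rfl fun j _ => ?_
        rw [Finset.sum_mul, Finset.mul_sum]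
        refine Finset.sum_congr rfl fun b _ => ?_
        have h3 : gauss χ * (x j b * χ (b : ZMod q) * (L j q χ (P j).m / (gauss χ * Ω j e))) =
            (gauss χ / gauss χ) * ((x j b / Ω j e) * χ (b : ZMod q) * L j q χ (P j).m) := by
          field_simp
        rw [h3, div_self hg, one_mul]
      rw [h2, h1, mul_zero]
    have hsq : χ (-1) = 1 ∨ χ (-1) = -1 := by
      have h3 : χ (-1) * χ (-1) = 1 := by
        rw [← map_mul, neg_mul_neg, one_mul, map_one]
      exact mul_self_eq_one_iff.1 h3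
    rcases hsq with h | h
    · exact hq1 q (lt_of_le_of_lt (le_max_left _ _) hlt) hqS χ hχ (key 1 h)
    · exact hq2 q (lt_of_le_of_lt (le_max_right _ _) hlt) hqS χ hχ (key (-1) h)

end Pool.Agent.Results.MP_cd171c_nt.LinearIndependenceOfTwists
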