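import Pool.Agent.X287.CR5

/-!
# Deligne's conjecture for all the twists by Dirichlet characters of a modulus, and sums over residue classes

`F` is a number field, `M` a motive over `ℚ` of weight `w` with coefficients in `F`, `n` an integer with `n ≥ w/2` (for
instance a critical integer `n ≥ (w+1)/2`, the central point of a motive of odd weight included), `N ≥ 1` a modulus. Used are
the traces of Frobenius `a_p(k) = Tr(Frob_p^k | M_λ^{I_p}) ∈ F`, `k ≥ 1`, and for every embedding `τ : F → ℂ` the eigenvalues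
`α^τ_{p,1}, …, α^τ_{p,d}` (completed by zeros) with `∑_i (α^τ_{p,i})^k = τ(a_p(k))`, `|α^τ_{p,i}| ≤ p^(w/2)`. For a
Dirichlet character `χ` modulo `N` let

`L^τ_χ(s) = ∏_{p ∤ N} ∏_i (1 - χ(p) α^τ_{p,i} p^{-s})⁻¹`,  `Re s > w/2 + 1`,

the `L`-function of the twist `M ⊗ χ` without the Euler factors at `p ∣ N`. Hypothesis on the continuation: every `L^τ_χ`
continues to a function meromorphic at the points of the real segment `[n, w/2 + 1]` and holomorphic at `n`. No hypothesis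
on zeros is made. For a class `c ∈ (ℤ/N)^×` let `S^τ_c(T)` be the absolutely convergent sum over the prime powers in the
residue class `c`

`S^τ_c(T) = - ∑_{p^k ≡ c (N)} τ(a_p(k)) p^{-kn} exp(iγ k log p / T) / (k Γ(1 + k log p / T))`,  `T > 0`,

`γ > π/2` being fixed: `φ(N)` functions for each `τ`, which are formed from the traces of `M` only. Then:

1. With the orders of vanishing `m^τ_χ ≥ 0` of `L^τ_χ` at `n` and the leading coefficients `exp(r^τ_χ)`,
   `S^τ_c(T) = φ(N)⁻¹ ∑_χ χ(c)⁻¹ (m^τ_χ (log T - Λ(γ)) - r^τ_χ) + O(1/T)`.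
2. DELIGNE'S CONJECTURE FOR THE TWISTS. Let `χ` be a Dirichlet character modulo `N` with values in `F` (one may enlarge
   `F`), `Ω^τ ≠ 0` (the components of the period of `M ⊗ χ`) and `x ∈ F`, `x ≠ 0`. Then `L^τ_{τχ}(n) = τ(x) Ω^τ` for all `τ` if
   and only if `Ω^τ exp(∑_c τ(χ(c)) S^τ_c(T)) → 1/τ(x)` for all `τ`.
3. SIMULTANEOUS NON-VANISHING. For each `τ` are equivalent: `L^τ_χ(n) ≠ 0` for ALL Dirichlet characters `χ` modulo `N`;
   `Re S^τ_1(T)`, the sum over the prime powers `≡ 1` modulo `N`, is bounded from above; `S^τ_c(T)` converges for all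
   `c ∈ (ℤ/N)^×`.

Proof: the rotated law for series with complex coefficients (`Pool.Agent.X287.CR`) and Fourier inversion on `(ℤ/N)^×`.
-/

set_option autoImplicit false

open Filter Topology Asymptotics

namespace Pool.Agent.Results.MP_cd171c_nt.TwistsAndResidueClasses

variable {F : Type} [Field F] {d : ℕ}

/-- The traces `a_p(k) ∈ F`, `k ≥ 1`, and the eigenvalues `α^τ_{p,i}` of Frobenius, for the embeddings `τ` of `F`. -/
structure IsLocalData (a : Nat.Primes → ℕ → F) (α : (F →+* ℂ) → Nat.Primes → Fin d → ℂ) (w : ℤ) : Prop where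
  /-- the power sums of the eigenvalues are the conjugates of the traces -/
  trace : ∀ τ p k, ∑ i, α τ p i ^ (k + 1) = τ (a p (k + 1))
  /-- the eigenvalues have absolute value at most `p^(w/2)` -/
  le : ∀ τ p i, ‖α τ p i‖ ≤ ((p : ℕ) : ℝ) ^ ((w : ℝ) / 2)

/-- The term of `S^τ_c(T)` for the prime `p = x.1` and the exponent `k = x.2 + 1`. -/
noncomputable def term (N : ℕ) (a : Nat.Primes → ℕ → F) (τ : F →+* ℂ) (n : ℤ) (γ T : ℝ) (c : ZMod N)
    (x : Nat.Primes × ℕ) : ℂ := by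
  classical
  exact if (((x.1 : ℕ) ^ (x.2 + 1) : ℕ) : ZMod N) = c then
    -(τ (a x.1 (x.2 + 1))) * ((((x.1 : ℕ) : ℂ) ^ n)⁻¹) ^ (x.2 + 1) *
      Complex.exp ((γ * ((x.2 + 1) * Real.log (x.1 : ℕ) / T) : ℝ) * Complex.I) /
    (((x.2 + 1) * Real.Gamma (1 + (x.2 + 1) * Real.log (x.1 : ℕ) / T) : ℝ) : ℂ) else 0

/-- The sum `S^τ_c(T)` over the prime powers in the class `c`. -/
noncomputable def S (N : ℕ) (a : Nat.Primes → ℕ → F) (τ : F →+* ℂ) (n : ℤ) (γ T : ℝ) (c : ZMod N) : ℂ :=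
  ∑' x, term N a τ n γ T c x

/-- The constant `Λ(γ) = ∫_0^∞ (e^{-t} - e^{iγt} / Γ(1 + t)) dt / t`. -/
noncomputable def Lambda (γ : ℝ) : ℂ := ∫ t in Set.Ioi (0 : ℝ),
  (Complex.exp (-(t : ℂ)) - Complex.exp ((γ * t : ℝ) * Complex.I) * ((Real.Gamma (1 + t))⁻¹ : ℝ)) / t

/-- `L` is the `L`-function with the local roots `β` for `Re s > w/2 + 1`, continued to a function which is
meromorphic at the points of the real segment `[n, w/2 + 1]` and holomorphic at `n`. -/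
structure IsContinuation (β : Nat.Primes → Fin d → ℂ) (w n : ℤ) (L : ℂ → ℂ) : Prop where
  prod : ∀ s : ℂ, (w : ℝ) / 2 + 1 < s.re →
    HasProd (fun p : Nat.Primes => ∏ i, (1 - β p i * ((p : ℕ) : ℂ) ^ (-s))⁻¹) (L s)
  mero : ∀ x : ℝ, (n : ℝ) ≤ x → x ≤ (w : ℝ) / 2 + 1 → MeromorphicAt L (x : ℂ)
  holo : AnalyticAt ℂ L n

/-- The roots of the twist by `χ`: they vanish for `p ∣ N`. -/
noncomputable def twist {N : ℕ} (χ : DirichletCharacter ℂ N) (β : Nat.Primes → Fin d → ℂ) : Nat.Primes → Fin d → ℂ :=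
  fun p i => χ ((p : ℕ) : ZMod N) * β p i

/-- the norms -/
def pq (p : Nat.Primes) : ℕ := p

open Pool.Agent.X287.CR in
theorem sys {a : Nat.Primes → ℕ → F} {α : (F →+* ℂ) → Nat.Primes → Fin d → ℂ} {w : ℤ}
    (h : IsLocalData a α w) (τ : F →+* ℂ) : CSys ((w : ℝ) / 2) pq (α τ) where
  cnt := inferInstance
  two_le := fun v => v.2.two_le
  sum := fun σ hσ => by
    have h1 : Summable fun n : ℕ => (n : ℝ) ^ (-σ) := Real.summable_nat_rpow.2 (by linarith)
    exact h1.comp_injective Subtype.val_injective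
  le := fun v i => h.le τ v i

open Pool.Agent.X287.CR in
theorem tmc_eq (N : ℕ) {a : Nat.Primes → ℕ → F} {α : (F →+* ℂ) → Nat.Primes → Fin d → ℂ} {w : ℤ}
    (h : IsLocalData a α w) (τ : F →+* ℂ) (n : ℤ) (γ T : ℝ) (c : ZMod N) (x : Nat.Primes × ℕ) :
    tmc N pq (α τ) n γ T c x = term N a τ n γ T c x := by
  unfold tmc term
  refine if_congr Iff.rfl ?_ rfl
  unfold tm lam
  rw [h.trace]
  have hp : ((x.1 : ℕ) : ℂ) ≠ 0 := by exact_mod_cast x.1.2.ne_zero
  have hl : ((Real.log (x.1 : ℕ) : ℝ) : ℂ) = Complex.log ((x.1 : ℕ) : ℂ) := by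
    rw [Complex.ofReal_log (Nat.cast_nonneg _)]
    push_cast
    rfl
  have e : Complex.exp (-((n : ℂ) * (((x.2 + 1) * Real.log (x.1 : ℕ) : ℝ) : ℂ))) =
      ((((x.1 : ℕ) : ℂ) ^ n)⁻¹) ^ (x.2 + 1) := by
    rw [← zpow_neg, ← Complex.cpow_intCast, Complex.cpow_def_of_ne_zero hp, ← hl, ← Complex.exp_nat_mul]
    congr 1
    push_cast
    ring
  have e2 : ((pq x.1 : ℕ) : ℝ) = ((x.1 : ℕ) : ℝ) := rfl
  rw [e2, e]

open Pool.Agent.X287.CR in
/-- **Deligne's conjecture for the twists of a modulus, and sums over residue classes.** -/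
theorem result (F : Type) [Field F] [NumberField F] (d : ℕ) (w n : ℤ) (hn : (w : ℝ) / 2 ≤ n)
    (N : ℕ) [NeZero N] (a : Nat.Primes → ℕ → F) (α : (F →+* ℂ) → Nat.Primes → Fin d → ℂ)
    (hα : IsLocalData a α w) (L : (F →+* ℂ) → DirichletCharacter ℂ N → ℂ → ℂ)
    (hL : ∀ τ χ, IsContinuation (twist χ (α τ)) w n (L τ χ)) (γ : ℝ) (hγ : Real.pi / 2 < γ) :
    -- absolute convergence
    (∀ τ (c : (ZMod N)ˣ), ∀ T : ℝ, 0 < T → Summable fun x => ‖term N a τ n γ T (c : ZMod N) x‖) ∧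
    -- 1. the asymptotic formula for the classes
    (∃ (m : (F →+* ℂ) → DirichletCharacter ℂ N → ℕ) (r : (F →+* ℂ) → DirichletCharacter ℂ N → ℂ),
      (∀ τ χ, analyticOrderAt (L τ χ) n = m τ χ ∧
        meromorphicTrailingCoeffAt (L τ χ) n = Complex.exp (r τ χ)) ∧
      ∀ τ (c : (ZMod N)ˣ), (fun T : ℝ => S N a τ n γ T (c : ZMod N) -
        (N.totient : ℂ)⁻¹ * ∑ χ : DirichletCharacter ℂ N, χ ((c : ZMod N)⁻¹) *
          (m τ χ * (Real.log T - Lambda γ) - r τ χ)) =O[atTop] (fun T : ℝ => 1 / T)) ∧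
    -- 2. Deligne's conjecture for the twists
    (∀ χ : DirichletCharacter F N, ∀ Ω : (F →+* ℂ) → ℂ, (∀ τ, Ω τ ≠ 0) → ∀ x : F, x ≠ 0 →
      ((∀ τ, L τ (χ.ringHomComp τ) n = τ x * Ω τ) ↔
        ∀ τ, Tendsto (fun T : ℝ => Ω τ * Complex.exp
          (∑ c : (ZMod N)ˣ, τ (χ (c : ZMod N)) * S N a τ n γ T (c : ZMod N))) atTop (𝓝 (1 / τ x)))) ∧
    -- 3. simultaneous non-vanishing
    (∀ τ, List.TFAE [∀ χ : DirichletCharacter ℂ N, L τ χ n ≠ 0,
      ∃ C : ℝ, ∀ᶠ T : ℝ in atTop, (S N a τ n γ T 1).re ≤ C,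
      ∀ c : (ZMod N)ˣ, ∃ B : ℂ, Tendsto (fun T : ℝ => S N a τ n γ T (c : ZMod N)) atTop (𝓝 B)]) := by
  have G := fun τ => sys hα τ
  have hre : ((n : ℤ) : ℂ).re = n := by simp
  have hs₀ : (w : ℝ) / 2 ≤ ((n : ℤ) : ℂ).re := by rw [hre]; exact hn
  have htw : ∀ τ (χ : DirichletCharacter ℂ N), tw pq χ (α τ) = twist χ (α τ) := fun τ χ => rfl
  have hSc : ∀ τ T c, Sc N pq (α τ) n γ T c = S N a τ n γ T c := fun τ T c =>
    tsum_congr fun x => tmc_eq N hα τ n γ T c x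
  have hlaw : ∀ τ (χ : DirichletCharacter ℂ N), ∃ (m : ℕ) (r₀ : ℂ),
      (meromorphicOrderAt (L τ χ) n = ((m : ℤ) : WithTop ℤ) ∧
      meromorphicTrailingCoeffAt (L τ χ) n = Complex.exp r₀) ∧
      Asy (Lambda γ) (Su pq (tw pq χ (α τ)) n γ) m r₀ := by
    intro τ χ
    obtain ⟨m, r₀, h1, h2, h3⟩ := (tw_sys (G τ) χ).law (L := L τ χ)
      (fun s hs => (hL τ χ).prod s (by linarith)) (s₀ := n) hs₀
      (fun x hx0 hx1 => by
        rw [hre] at hx1
        have := (hL τ χ).mero (n + x) (by linarith) (by linarith)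
        push_cast at this
        exact this) hγ
    have h4 := (value (hL τ χ).holo h1 h2).1
    obtain ⟨k, rfl⟩ := Int.eq_ofNat_of_zero_le h4
    exact ⟨k, r₀, ⟨h1, h2⟩, h3⟩
  choose m r hmr hA using hlaw
  have hval : ∀ τ χ, Val (L τ χ) n (Su pq (tw pq χ (α τ)) n γ) := fun τ χ =>
    value_iff (hL τ χ).holo (hmr τ χ).1 (hmr τ χ).2 (hA τ χ)
  have hSu : ∀ τ (χ : DirichletCharacter ℂ N), ∀ T : ℝ, 0 < T → Su pq (tw pq χ (α τ)) n γ T =
      ∑ c : (ZMod N)ˣ, χ (c : ZMod N) * S N a τ n γ T (c : ZMod N) := by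
    intro τ χ T hT
    rw [Su_tw (G τ) hs₀ γ hT χ]
    exact Finset.sum_congr rfl fun c _ => by rw [hSc]
  refine ⟨fun τ c T hT => ?_, ⟨m, r, fun τ χ => ⟨an_order (hL τ χ).holo (hmr τ χ).1, (hmr τ χ).2⟩,
    fun τ c => ?_⟩, fun χ Ω hΩ x hx => forall_congr' fun τ => ?_, fun τ => ?_⟩
  · have h1 := tmc_summable (G τ) hs₀ γ hT N (c : ZMod N)
    simpa only [tmc_eq N hα] using h1
  · have h1 := class_law (G τ) hs₀ γ (fun χ => ((m τ χ : ℕ) : ℤ)) (r τ) (hA τ) c
    simpa only [hSc, Int.cast_natCast] using h1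
  · have h1 : τ x ≠ 0 := (map_ne_zero τ).2 hx
    have h2 := hΩ τ
    rw [(hval τ (χ.ringHomComp τ)).eq_iff (τ x * Ω τ) (mul_ne_zero h1 h2)]
    have hev : (fun T : ℝ => Complex.exp (Su pq (tw pq (χ.ringHomComp τ) (α τ)) n γ T)) =ᶠ[atTop]
        fun T : ℝ => Complex.exp (∑ c : (ZMod N)ˣ, τ (χ (c : ZMod N)) * S N a τ n γ T (c : ZMod N)) := by
      filter_upwards [eventually_gt_atTop 0] with T hT
      rw [hSu τ _ T hT]
      rfl
    rw [tendsto_congr' hev]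
    constructor
    · intro h3
      have h4 := h3.const_mul (Ω τ)
      have e2 : Ω τ * (1 / (τ x * Ω τ)) = 1 / τ x := by field_simp
      rwa [e2] at h4
    · intro h3
      have h4 := h3.const_mul ((Ω τ)⁻¹)
      have e2 : (Ω τ)⁻¹ * (1 / τ x) = 1 / (τ x * Ω τ) := by field_simp
      rw [e2] at h4
      refine h4.congr fun T => ?_
      field_simp
  · have h1 := nonvanish (G τ) hs₀ γ (fun χ => ((m τ χ : ℕ) : ℤ)) (r τ) (fun χ => by simp) (hA τ)
    have e1 : (∀ χ : DirichletCharacter ℂ N, L τ χ n ≠ 0) ↔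
        ∀ χ : DirichletCharacter ℂ N, ((m τ χ : ℕ) : ℤ) = 0 := by
      refine forall_congr' fun χ => ?_
      obtain ⟨-, h2, h3⟩ := value (hL τ χ).holo (hmr τ χ).1 (hmr τ χ).2
      constructor
      · intro h4
        by_contra h5
        exact h4 (h3 h5)
      · intro h4
        rw [h2 h4]
        exact Complex.exp_ne_zero _
    simp only [hSc] at h1
    rw [e1]
    exact h1

end Pool.Agent.Results.MP_cd171c_nt.TwistsAndResidueClasses
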