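import Pool.Agent.X218.TP.Fin

/-!
# Deligne's period conjecture for twists of `X_0(14)`: the algebraic part of the critical value is a
# unit at all primes above 2, for characters whose 2-part is arbitrary

`E` is the modular curve `X_0(14)`, `y² + x y + y = x³ + 4 x - 6`.  For a primitive Dirichlet character
`ρ` of conductor `f > 1` prime to `14`, with values in the field `ℚ(ρ)`, the motive
`M_ρ = h¹(E) ⊗ [ρ]` has coefficients in `ℚ(ρ)`, weight `1` and the `L`-function `L(E, ρ, s)`, with
components `L(E, σρ, s)` for the embeddings `σ` of `ℚ(ρ)`; `s = 1` is critical, and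
`c⁺(M_ρ, 1) = Ω^± / g(ρ̄)`, where `g` is the Gauss sum and `Ω⁺`, `Ω⁻` are the real and the imaginary
period of `E`, with the sign of `ρ(-1)`.

Here we normalise the algebraic part `x(ρ)` by `g(ρ̄) L(E, ρ, 1) = Ω x(ρ)`, with `Ω = Ω⁺ / 3` for the even
and `Ω = i Ω⁻` for the odd characters.  Then `x(ρ)` is in the ring `ℤ[ρ]`, and
`x(σρ) = σ(x(ρ))` for all the embeddings `σ` (this is Deligne's formula for `M_ρ`, due in this case to
Manin and Shimura; it is part of the theorem, as the numbers `x(ρ)` enter the rest).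

**The new result.**  Let `χ ≠ 1` be a character of odd order, and `δ` any primitive character of
2-power order and conductor `d`, with `χ(p) ≠ 1` for the primes `p ∣ d` (`p` prime to `14` and to the
conductor of `χ`).  Under a condition on the field `K` of `χ` (odd narrow class number, and `χ(2) ≠ 1`,
`χ(7) ≠ 1`), `x(ρ)` is a unit at all the primes of `ℚ(ρ)` above `2` for `ρ = χ δ`: `a x(ρ) + 2 b = 1`
with `a`, `b` in `ℤ[ρ]`.  In particular the critical value `L(E, ρ, 1)` is not zero.  If `χ` has 3-power
order and conductor `3^n`, then the conditions at `2` and `7` and on the class number are satisfied, and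
the theorem holds for all `n`, and all `δ`.

For `δ` of order two `L(E, χδ, s)` is the `L`-function of `χ` and the quadratic twist of `E` by `δ`; the
order of `δ` can be `4`, `8`, ..., and then the motive is not the twist of an elliptic curve by a
character of odd order.

The proof.  `x(ρ)` is a sum of modular symbols of `E`, twisted by `ρ`.  The symbols modulo `2` are given
by the signs of the cyclotomic units, or, for the twisted sums, by the Euler factors at the primes
dividing `d`, as `δ = 1` modulo the primes above `2`; the signs of the units of `K` are independent, as the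
narrow class number is odd, and so the `χ`-part is a unit.
-/

set_option autoImplicit false

open NumberField MeasureTheory IsCyclotomicExtension.Rat

namespace Pool.Agent.Results.MP_cd171c_nt.UnitsAtTwo

open scoped Classical

open Pool.Agent.Y682 (NCl)

/-- The modular curve `X_0(14)`, `y² + x y + y = x³ + 4 x - 6`, over the ring `R`. -/
def curve (R : Type) [CommRing R] : WeierstrassCurve R := ⟨1, 0, 1, 4, -6⟩

/-- `a_p = p + 1 - #E(𝔽_p)`, that is `p` minus the number of the affine points. -/
noncomputable def a (p : ℕ) : ℤ :=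
  p - Nat.card {P : ZMod p × ZMod p // (curve (ZMod p)).toAffine.Equation P.1 P.2}

/-- `4 x³ + x² + 18 x - 23 = (2 y + x + 1)²` -/
def cubic (x : ℝ) : ℝ := 4 * x ^ 3 + x ^ 2 + 18 * x - 23

/-- The real period `∫_{E(ℝ)} |ω|`, `ω = dx / (2 y + x + 1)`, as an integral over `x`: two real points
lie over each `x` with `cubic x > 0`. -/
noncomputable def realPeriod : ℝ := 2 * ∫ x in {x : ℝ | 0 < cubic x}, 1 / √(cubic x)

/-- The imaginary period (divided by `i`), the integral over the points with real `x` and imaginary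
`2 y + x + 1`. -/
noncomputable def imagPeriod : ℝ := 2 * ∫ x in {x : ℝ | cubic x < 0}, 1 / √(-cubic x)

/-- The constant `Ω` of the formula, `Ω⁺ / 3` for an even and `i Ω⁻` for an odd character. -/
noncomputable def period {f : ℕ} (ρ : DirichletCharacter ℂ f) : ℂ :=
  if ρ (-1) = 1 then (realPeriod : ℂ) / 3 else Complex.I * imagPeriod

/-- The ring `ℤ[ρ]` generated by the values of `ρ`. -/
noncomputable def values {f : ℕ} (ρ : DirichletCharacter ℂ f) : Subalgebra ℤ ℂ :=
  Algebra.adjoin ℤ (Set.range fun a : ZMod f => ρ a)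

/-- `x` is the algebraic part of the critical value of the motive `h¹(E) ⊗ [ρ]`: it is in `ℤ[ρ]`, and
there is an entire function `L`, for `Re s > 3/2` the Euler product with the factors
`(1 - a_p ρ(p) p^(-s) + ρ(p)² p^(1 - 2s))⁻¹` (without the last term for `p = 2` and `7`), with
`g(ρ̄) L(1) = Ω x`; and `L(1) = 0` if and only if `x = 0`. -/
structure IsAlgebraicPart {f : ℕ} [NeZero f] (ρ : DirichletCharacter ℂ f) (x : ℂ) : Prop where
  integral : x ∈ values ρ
  formula : ∃ L : ℂ → ℂ, Differentiable ℂ L ∧
    (∀ s : ℂ, 3 / 2 < s.re → HasProd (fun p : Nat.Primes =>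
      (1 - (a p : ℂ) * ρ p * (p : ℂ) ^ (-s) +
        (if (p : ℕ) ∣ 14 then 0 else (p : ℂ)) * (ρ p) ^ 2 * (p : ℂ) ^ (-2 * s))⁻¹) (L s)) ∧
    gaussSum ρ⁻¹ (ZMod.stdAddChar (N := f)) * L 1 = period ρ * x ∧
    (L 1 = 0 ↔ x = 0)

/-- `x` is prime to `2` in `ℤ[ρ]`; so it is not zero, and a unit at all the primes above `2` of the field
`ℚ(ρ)` generated by the values of `ρ`. -/
def UnitAtTwo {f : ℕ} (ρ : DirichletCharacter ℂ f) (x : ℂ) : Prop :=
  ∃ u ∈ values ρ, ∃ v ∈ values ρ, u * x + 2 * v = 1

/-- The character `χ` modulo `q` is a nontrivial character of the subfield `K` of the `q`-th cyclotomic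
field `F`, and `K` has odd degree.  Further `q` is a power of `3`, or the narrow class number of `K` is
odd, `χ(2) ≠ 1`, `χ(7) ≠ 1` and `q` is a power of a prime, or at least all the primes dividing `q` are
ramified in all the subfields of `K` except `ℚ`. -/
structure Good (q : ℕ) [NeZero q] (F : Type) [Field F] [NumberField F]
    [IsCyclotomicExtension {q} ℚ F] (K : IntermediateField ℚ F) (χ : DirichletCharacter ℂ q) :
    Prop where
  odd : Odd (Module.finrank ℚ K)
  ne_one : χ ≠ 1
  char : ∀ σ ∈ K.fixingSubgroup, χ (galEquivZMod q F σ) = 1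
  cond : (∃ n : ℕ, q = 3 ^ n) ∨ (Odd (Nat.card (NCl K)) ∧
    (IsPrimePow q ∨ ∀ F' : IntermediateField ℚ F, F' ≤ K → F' ≠ ⊥ →
      ∀ p : ℕ, p.Prime → p ∣ q → (p : ℤ) ∣ discr F') ∧
    χ ((2 : ℕ) : ZMod q) ≠ 1 ∧ χ ((7 : ℕ) : ZMod q) ≠ 1)

/-- The primitive character that induces the product of the character `χ` modulo `q` and the character
`δ` modulo `d`. -/
noncomputable abbrev product {q d : ℕ} [NeZero q] [NeZero d] (χ : DirichletCharacter ℂ q)
    (δ : DirichletCharacter ℂ d) :=
  (DirichletCharacter.changeLevel (dvd_mul_right q d) χ *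
    DirichletCharacter.changeLevel (dvd_mul_left d q) δ).primitiveCharacter

/-- **Main theorem.** There are numbers `x(ρ)`, for the Dirichlet characters `ρ`, with the following
properties.

(1) For every primitive character `ρ` of conductor `f > 1` prime to `14`, `x(ρ)` is the algebraic part
of the critical value of the motive `h¹(E) ⊗ [ρ]`, and `x(σρ) = σ(x(ρ))` for all the embeddings `σ` of
`ℂ` in `ℂ`.

(2) If `χ` is a good character modulo `q > 1` prime to `14`, `δ` a primitive character of 2-power order
and squarefree conductor `d`, and `p` does not divide `14 q` and `χ(p) ≠ 1` for the primes `p ∣ d`, then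
`x(χδ)` is a unit at all the primes above `2`; so the critical value is not zero. -/
theorem result : ∃ x : (f : ℕ) → DirichletCharacter ℂ f → ℂ,
    (∀ (f : ℕ) [NeZero f] (ρ : DirichletCharacter ℂ f), 1 < f → f.Coprime 14 → ρ.IsPrimitive →
      IsAlgebraicPart ρ (x f ρ) ∧ ∀ σ : ℂ →+* ℂ, x f (ρ.ringHomComp σ) = σ (x f ρ)) ∧
    ∀ (q : ℕ) [NeZero q], 1 < q → q.Coprime 14 →
      ∀ (F : Type) [Field F] [NumberField F] [IsCyclotomicExtension {q} ℚ F]
        (K : IntermediateField ℚ F) (χ : DirichletCharacter ℂ q), Good q F K χ →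
      ∀ (d : ℕ) [NeZero d] (δ : DirichletCharacter ℂ d), δ.IsPrimitive → Squarefree d →
        (∃ n : ℕ, δ ^ 2 ^ n = 1) →
        (∀ p : ℕ, p.Prime → p ∣ d → ¬ p ∣ 14 * q ∧ χ (p : ZMod q) ≠ 1) →
        UnitAtTwo (product χ δ) (x _ (product χ δ)) := by
  obtain ⟨x, h1, h2⟩ := Pool.Agent.X218.TP.final
  refine ⟨x, ?_, ?_⟩
  · intro f _ ρ hf hco hρ
    obtain ⟨⟨hm, L, hL, hE, hv, h0⟩, hc⟩ := h1 f ρ hf hco hρ
    refine ⟨⟨hm, L, hL, fun s hs => ?_, hv, h0⟩, hc⟩
    have hap : ∀ p : ℕ, a p = Pool.Agent.W97.MT.ap Pool.Agent.W97.MT.E14 p := by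
      intro p
      have hE : curve (ZMod p) = Pool.Agent.W97.MT.E14.map (Int.castRingHom (ZMod p)) := by
        simp only [curve, Pool.Agent.W97.MT.E14, WeierstrassCurve.map, eq_intCast]
        push_cast
        rfl
      unfold a
      rw [hE]
      rfl
    have := hE s hs
    simp only [hap]
    exact this
  · intro q _ hq hco F _ _ _ K χ hg d _ δ hδ hd hn hp
    exact h2 q hq hco F K hg.odd χ hg.ne_one hg.char hg.cond d δ hδ hd hn hp

end Pool.Agent.Results.MP_cd171c_nt.UnitsAtTwo
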